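import Mathlib

set_option autoImplicit false

namespace Pool.Agent.Results.MP_68af1b_co.Counter

open Polynomial Finset

/-- The restricted Stirling number: partitions of an `n`-set into exactly `k` nonempty blocks,
each of size at most `m`. -/
def stirlingLe (n k m : ℕ) : ℕ :=
  (univ.filter fun P : Finset (Finset (Fin n)) =>
    P.card = k ∧ (∀ b ∈ P, b.Nonempty ∧ b.card ≤ m) ∧
      (∀ i, ∃ b ∈ P, i ∈ b) ∧ ∀ b ∈ P, ∀ c ∈ P, b ≠ c → Disjoint b c).card

/-- The restricted Bell polynomial. -/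
noncomputable def bellLe (n m : ℕ) : ℝ[X] :=
  ∑ k ∈ range (n + 1), C (stirlingLe n k m : ℝ) * X ^ k

section
variable {α : Type} [DecidableEq α]

def Par (m : ℕ) (s : Finset α) : Finset (Finset (Finset α)) :=
  s.powerset.powerset.filter fun P => (∀ b ∈ P, b.Nonempty ∧ b.card ≤ m) ∧
    (∀ i ∈ s, ∃ b ∈ P, i ∈ b) ∧ ∀ b ∈ P, ∀ c ∈ P, b ≠ c → Disjoint b c

theorem mem_Par {m : ℕ} {s : Finset α} {P : Finset (Finset α)} : P ∈ Par m s ↔
    (∀ b ∈ P, b ⊆ s) ∧ (∀ b ∈ P, b.Nonempty ∧ b.card ≤ m) ∧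
    (∀ i ∈ s, ∃ b ∈ P, i ∈ b) ∧ ∀ b ∈ P, ∀ c ∈ P, b ≠ c → Disjoint b c := by
  simp only [Par, mem_filter, mem_powerset, subset_iff]

noncomputable def F (m : ℕ) (s : Finset α) : ℝ[X] := ∑ P ∈ Par m s, X ^ P.card

theorem not_mem_of {m : ℕ} {s t : Finset α} {a : α} {Q : Finset (Finset α)}
    (hQ : Q ∈ Par m (s.erase a \ t)) {b : Finset α} (hb : b ∈ Q) : a ∉ b := fun h => by
  have := (mem_Par.1 hQ).1 b hb h
  simp at this

theorem F_rec (m : ℕ) (s : Finset α) (a : α) (ha : a ∈ s) :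
    F m s = ∑ t ∈ (s.erase a).powerset.filter (fun t => t.card < m), X * F m (s.erase a \ t) := by
  simp only [F, mul_sum]
  rw [sum_sigma']
  symm
  refine sum_bij (fun x _ => insert (insert a x.1) x.2) ?_ ?_ ?_ ?_
  · rintro ⟨t, Q⟩ hx
    simp only [mem_sigma, mem_filter, mem_powerset] at hx
    obtain ⟨⟨ht, hc⟩, hQ⟩ := hx
    obtain ⟨h1, h2, h3, h4⟩ := mem_Par.1 hQ
    have hd : ∀ b ∈ Q, Disjoint (insert a t) b := by
      intro b hb
      rw [disjoint_insert_left]
      exact ⟨not_mem_of hQ hb, disjoint_of_subset_right (h1 b hb) disjoint_sdiff⟩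
    refine mem_Par.2 ⟨?_, ?_, ?_, ?_⟩
    · intro b hb
      rcases mem_insert.1 hb with rfl | hb
      · exact insert_subset ha (ht.trans (erase_subset _ _))
      · exact (h1 b hb).trans (sdiff_subset.trans (erase_subset _ _))
    · intro b hb
      rcases mem_insert.1 hb with rfl | hb
      · exact ⟨insert_nonempty _ _, (card_insert_le _ _).trans hc⟩
      · exact h2 b hb
    · intro i hi
      by_cases h : i ∈ insert a t
      · exact ⟨_, mem_insert_self _ _, h⟩
      · rw [mem_insert, not_or] at h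
        obtain ⟨b, hb, hib⟩ := h3 i (by simp [h.1, h.2, hi])
        exact ⟨b, mem_insert_of_mem hb, hib⟩
    · intro b hb c hc hbc
      rcases mem_insert.1 hb with rfl | hb <;> rcases mem_insert.1 hc with rfl | hc
      · exact absurd rfl hbc
      · exact hd c hc
      · exact (hd b hb).symm
      · exact h4 b hb c hc hbc
  · rintro ⟨t, Q⟩ hx ⟨t', Q'⟩ hx' h
    simp only [mem_sigma, mem_filter, mem_powerset] at hx hx' h
    have hat : a ∉ t := fun h => by simpa using hx.1.1 h
    have hat' : a ∉ t' := fun h => by simpa using hx'.1.1 h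
    have h1 : insert a t = insert a t' := by
      have : insert a t ∈ insert (insert a t') Q' := h ▸ mem_insert_self _ _
      rcases mem_insert.1 this with h | h
      · exact h
      · exact absurd (mem_insert_self _ _) (not_mem_of hx'.2 h)
    have h2 : t = t' := by rw [← erase_insert hat, h1, erase_insert hat']
    subst h2
    have n1 : insert a t ∉ Q := fun h => not_mem_of hx.2 h (mem_insert_self _ _)
    have n2 : insert a t ∉ Q' := fun h => not_mem_of hx'.2 h (mem_insert_self _ _)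
    have h3 : Q = Q' := by rw [← erase_insert n1, h, erase_insert n2]
    rw [h3]
  · intro P hP
    obtain ⟨h1, h2, h3, h4⟩ := mem_Par.1 hP
    obtain ⟨b, hb, hab⟩ := h3 a ha
    refine ⟨⟨b.erase a, P.erase b⟩, ?_, ?_⟩
    · simp only [mem_sigma, mem_filter, mem_powerset]
      refine ⟨⟨erase_subset_erase _ (h1 b hb), ?_⟩, mem_Par.2 ⟨?_, ?_, ?_, ?_⟩⟩
      · exact lt_of_lt_of_le (card_erase_lt_of_mem hab) (h2 b hb).2
      · intro c hc i hi
        rw [mem_erase] at hc
        have hib : i ∉ b := disjoint_left.1 (h4 c hc.2 b hb hc.1) hi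
        simp only [mem_sdiff, mem_erase, not_and]
        exact ⟨⟨fun e => hib (e ▸ hab), h1 c hc.2 hi⟩, fun _ => hib⟩
      · exact fun c hc => h2 c (mem_of_mem_erase hc)
      · intro i hi
        simp only [mem_sdiff, mem_erase, not_and] at hi
        obtain ⟨c, hc, hic⟩ := h3 i hi.1.2
        exact ⟨c, mem_erase.2 ⟨fun e => hi.2 hi.1.1 (e ▸ hic), hc⟩, hic⟩
      · exact fun c hc d hd => h4 c (mem_of_mem_erase hc) d (mem_of_mem_erase hd)
    · simp only [insert_erase hab, insert_erase hb]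
  · rintro ⟨t, Q⟩ hx
    simp only [mem_sigma] at hx
    have n1 : insert a t ∉ Q := fun h => not_mem_of hx.2 h (mem_insert_self _ _)
    simp only [card_insert_of_notMem n1, pow_succ']

noncomputable def b (m : ℕ) : ℕ → ℝ[X]
  | 0 => 1
  | n + 1 => ∑ j ∈ range (n + 1), n.choose j • (if j < m then X * b m (n - j) else 0)
decreasing_by omega

theorem F_eq (m : ℕ) : ∀ (n : ℕ) (s : Finset α), s.card = n → F m s = b m n := by
  intro n
  induction n using Nat.strong_induction_on with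
  | _ n ih =>
    intro s hs
    cases n with
    | zero =>
      rw [card_eq_zero.1 hs, b, F]
      have : Par m (∅ : Finset α) = {∅} := by
        ext P
        rw [mem_Par, mem_singleton]
        constructor
        · rintro ⟨h1, h2, -⟩
          rw [eq_empty_iff_forall_notMem]
          exact fun c hc => (h2 c hc).1.ne_empty (subset_empty.1 (h1 c hc))
        · rintro rfl; simp
      simp [this]
    | succ n =>
      obtain ⟨a, ha⟩ := card_pos.1 (by omega : 0 < s.card)
      have hc : (s.erase a).card = n := by rw [card_erase_of_mem ha]; omega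
      rw [F_rec m s a ha, b, sum_filter, ← hc, ← sum_powerset_apply_card
        (fun j => if j < m then X * b m ((s.erase a).card - j) else 0)]
      refine sum_congr rfl fun t ht => ?_
      rw [ih _ (by omega) _ (card_sdiff_of_subset (mem_powerset.1 ht))]
end

theorem bell_eq (n m : ℕ) : bellLe n m = b m n := by
  rw [← F_eq m n (univ : Finset (Fin n)) (by simp), F, bellLe]
  rw [← sum_fiberwise_of_maps_to (s := Par m univ) (t := range (n + 1)) (g := Finset.card)]
  · refine sum_congr rfl fun k _ => ?_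
    rw [sum_congr rfl fun P hP => show (X : ℝ[X]) ^ P.card = X ^ k by rw [(mem_filter.1 hP).2],
      sum_const, nsmul_eq_mul, map_natCast, stirlingLe]
    congr 3
    ext P
    simp only [mem_filter, mem_univ, true_and, mem_Par, subset_univ, implies_true,
      forall_const]
    exact and_comm
  · intro P hP
    obtain ⟨-, h2, -, h4⟩ := mem_Par.1 hP
    have h1 := card_biUnion (s := P) (t := id) (fun b hb c hc h => h4 b hb c hc h)
    have h3 : (P.biUnion id).card ≤ n := by simpa using card_le_univ (P.biUnion id)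
    have h5 : P.card ≤ ∑ u ∈ P, (id u).card := by
      rw [card_eq_sum_ones]
      exact sum_le_sum fun c hc => (h2 c hc).1.card_pos
    rw [mem_range]; omega

theorem b_rec (n : ℕ) : b 5 (n + 1) = X * (b 5 n + C (n : ℝ) * b 5 (n - 1) +
    C (n.choose 2 : ℝ) * b 5 (n - 2) + C (n.choose 3 : ℝ) * b 5 (n - 3) +
    C (n.choose 4 : ℝ) * b 5 (n - 4)) := by
  have h : ∀ N, n < N → 5 ≤ N → ∑ j ∈ range (n + 1), n.choose j • (if j < 5 then X * b 5 (n - j)
      else 0) = ∑ j ∈ range 5, n.choose j • (if j < 5 then X * b 5 (n - j) else 0) := by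
    intro N h1 h2
    rw [sum_subset (range_subset_range.2 (show n + 1 ≤ N by omega)),
      sum_subset (range_subset_range.2 h2)]
    · intro j _ hj
      rw [if_neg (by simpa using hj), smul_zero]
    · intro j _ hj
      rw [Nat.choose_eq_zero_of_lt (by simpa using hj), zero_smul]
  rw [b, h (n + 5) (by omega) (by omega)]
  simp only [sum_range_succ, range_zero, sum_empty, nsmul_eq_mul, map_natCast]
  simp
  ring

structure T3 where
  u : ℤ
  v : ℤ
  w : ℤ

def step (n : ℕ) (a0 a1 a2 a3 a4 : T3) : T3 :=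
  let c1 : ℤ := n
  let c2 : ℤ := (n.descFactorial 2 / 2 : ℕ)
  let c3 : ℤ := (n.descFactorial 3 / 6 : ℕ)
  let c4 : ℤ := (n.descFactorial 4 / 24 : ℕ)
  let u := a0.u + c1 * a1.u + c2 * a2.u + c3 * a3.u + c4 * a4.u
  let v := a0.v + c1 * a1.v + c2 * a2.v + c3 * a3.v + c4 * a4.v
  let w := a0.w + c1 * a1.w + c2 * a2.w + c3 * a3.w + c4 * a4.w
  ⟨-1950 * u, u - 1950 * v, 2 * v - 1950 * w⟩

def Ok (p : ℝ[X]) (a : T3) : Prop := p.eval (-1950) = a.u ∧ (derivative p).eval (-1950) = a.v ∧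
  (derivative (derivative p)).eval (-1950) = a.w

theorem step_ok (n : ℕ) (a0 a1 a2 a3 a4 : T3) (h0 : Ok (b 5 n) a0) (h1 : Ok (b 5 (n - 1)) a1)
    (h2 : Ok (b 5 (n - 2)) a2) (h3 : Ok (b 5 (n - 3)) a3) (h4 : Ok (b 5 (n - 4)) a4) :
    Ok (b 5 (n + 1)) (step n a0 a1 a2 a3 a4) := by
  have e2 : n.descFactorial 2 / 2 = n.choose 2 := (Nat.choose_eq_descFactorial_div_factorial n 2).symm
  have e3 : n.descFactorial 3 / 6 = n.choose 3 := (Nat.choose_eq_descFactorial_div_factorial n 3).symm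
  have e4 : n.descFactorial 4 / 24 = n.choose 4 :=
    (Nat.choose_eq_descFactorial_div_factorial n 4).symm
  rw [b_rec]
  simp only [Ok, step, e2, e3, e4, derivative_mul, derivative_add, derivative_X, derivative_C,
    derivative_one, eval_add, eval_mul, eval_X, eval_C, eval_one, zero_mul, zero_add,
    h0.1, h0.2.1, h0.2.2, h1.1, h1.2.1, h1.2.2, h2.1, h2.2.1, h2.2.2, h3.1, h3.2.1, h3.2.2,
    h4.1, h4.2.1, h4.2.2]
  push_cast
  refine ⟨by ring, by ring, by ring⟩

def go : ℕ → ℕ → T3 → T3 → T3 → T3 → T3 → Bool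
  | 0, _, a0, _, _, _, _ => decide (a0.v * a0.v < a0.u * a0.w)
  | k + 1, n, a0, a1, a2, a3, a4 =>
    match step n a0 a1 a2 a3 a4 with
    | ⟨u, v, w⟩ => (u == u && v == v && w == w) && go k (n + 1) ⟨u, v, w⟩ a0 a1 a2 a3

theorem go_ok : ∀ (k n : ℕ) (a0 a1 a2 a3 a4 : T3), Ok (b 5 n) a0 → Ok (b 5 (n - 1)) a1 →
    Ok (b 5 (n - 2)) a2 → Ok (b 5 (n - 3)) a3 → Ok (b 5 (n - 4)) a4 →
    go k n a0 a1 a2 a3 a4 = true → ∃ a, Ok (b 5 (n + k)) a ∧ a.v * a.v < a.u * a.w := by
  intro k
  induction k with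
  | zero => exact fun n a0 _ _ _ _ h0 _ _ _ _ h => ⟨a0, h0, by simpa [go] using h⟩
  | succ k ih =>
    intro n a0 a1 a2 a3 a4 h0 h1 h2 h3 h4 h
    have hs := step_ok n a0 a1 a2 a3 a4 h0 h1 h2 h3 h4
    simp only [go, Bool.and_eq_true] at h
    rw [show n + (k + 1) = n + 1 + k by omega]
    exact ih (n + 1) _ a0 a1 a2 a3 hs h0 h1 h2 h3 h.2

theorem check : go 754 0 ⟨1, 0, 0⟩ ⟨1, 0, 0⟩ ⟨1, 0, 0⟩ ⟨1, 0, 0⟩ ⟨1, 0, 0⟩ = true := by
  decide +kernel

theorem laguerre (x : ℝ) : ∀ (d : ℕ) (p : ℝ[X]), p.natDegree = d →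
    (∀ z : ℂ, aeval z p = 0 → z.im = 0) →
    p.eval x * (derivative (derivative p)).eval x ≤ (derivative p).eval x ^ 2 := by
  intro d
  induction d with
  | zero =>
    intro p hp _
    rw [eq_C_of_natDegree_eq_zero hp]; simp
  | succ d ih =>
    intro p hp h
    have hd : p.degree ≠ 0 := by
      rw [degree_eq_natDegree (by rintro rfl; simp at hp), hp]; exact_mod_cast d.succ_ne_zero
    obtain ⟨z, hz⟩ := IsAlgClosed.exists_aeval_eq_zero ℂ p hd
    have hzr : z = algebraMap ℝ ℂ z.re := Complex.ext (by simp) (by simp [h z hz])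
    rw [hzr, aeval_algebraMap_apply_eq_algebraMap_eval, map_eq_zero] at hz
    obtain ⟨q, hq⟩ := dvd_iff_isRoot.2 hz
    have hq0 : q ≠ 0 := by rintro rfl; simp [hq] at hp
    have h1 := ih q (by
      rw [hq, natDegree_mul (X_sub_C_ne_zero _) hq0, natDegree_X_sub_C] at hp; omega)
      (fun w hw => h w (by rw [hq, map_mul, hw, mul_zero]))
    rw [hq]
    simp only [derivative_mul, derivative_sub, derivative_add, derivative_X, derivative_C,
      derivative_one, eval_add, eval_mul, eval_sub, eval_X, eval_C, sub_zero, one_mul]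
    nlinarith [mul_le_mul_of_nonneg_left h1 (sq_nonneg (x - z.re)), sq_nonneg (q.eval x)]

theorem result : ∃ z : ℂ, aeval z (bellLe 754 5) = 0 ∧ z.im ≠ 0 := by
  by_contra hcon
  push Not at hcon
  have h0 : Ok (b 5 0) ⟨1, 0, 0⟩ := by simp [Ok, b]
  obtain ⟨a, ha, hlt⟩ := go_ok 754 0 _ _ _ _ _ h0 h0 h0 h0 h0 check
  have h := laguerre (-1950) _ _ rfl hcon
  rw [bell_eq, ha.1, ha.2.1, ha.2.2] at h
  have : ((a.v * a.v : ℤ) : ℝ) < ((a.u * a.w : ℤ) : ℝ) := by exact_mod_cast hlt
  push_cast at this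
  nlinarith

end Pool.Agent.Results.MP_68af1b_co.Counter
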